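import Mathlib
import Pool.Agent.Q256.PC.Fin

/-!
# The identity `f_k(G) = k (δ(G) - 1)` for the binomial random graph fails for every fixed `k ≥ 2`

Isolating `k - 1` vertices of `G` makes the path cover number at least `k`, and if the path cover
number of `G` is at most `k` (with high probability it is `1`), then a subset of the deleted edges makes
it equal to `k`. So `f_k(G)` is at most the sum of `k - 1` degrees, and this is less than
`k (δ(G) - 1)` as soon as the degrees are concentrated and large. For `k = 2` already `f_2(G) ≤ δ(G)`,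
which is less than `2 (δ(G) - 1)` as soon as `δ(G) ≥ 3`.
-/

set_option autoImplicit false

namespace Pool.Agent.Results.MP_e6ec33_pr.IdentityFails

open Filter Topology

/-- The probability that the binomial random graph `G(n,p)` has the property `P`: the sum of the
probabilities `p ^ e(G) * (1 - p) ^ (n choose 2 - e(G))` of the graphs `G` on `n` vertices with this
property. -/
noncomputable def prob (n : ℕ) (p : ℝ) (P : SimpleGraph (Fin n) → Prop) : ℝ := by
  classical
  exact ∑ G : SimpleGraph (Fin n),
    if P G then p ^ G.edgeSet.ncard * (1 - p) ^ (n.choose 2 - G.edgeSet.ncard) else 0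

/-- The lists in `L` are the vertex sequences of paths of `H` (nonempty, consecutive vertices adjacent,
a single vertex counts as a path) which together pass through every vertex exactly once. -/
def IsPathCover {n : ℕ} (H : SimpleGraph (Fin n)) (L : List (List (Fin n))) : Prop :=
  (∀ l ∈ L, l ≠ [] ∧ l.IsChain H.Adj) ∧ L.flatten.Nodup ∧ ∀ v : Fin n, v ∈ L.flatten

/-- The path cover number `μ(H)`. -/
noncomputable def pathCoverNumber {n : ℕ} (H : SimpleGraph (Fin n)) : ℕ :=
  sInf {m : ℕ | ∃ L : List (List (Fin n)), IsPathCover H L ∧ L.length = m}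

/-- The minimum degree `δ(G)`. -/
noncomputable def minDegree {n : ℕ} (G : SimpleGraph (Fin n)) : ℕ := ⨅ v, (G.neighborSet v).ncard

/-- `f_k(G)`: the least number of edges of `G` whose deletion leaves a graph with path cover number
`k` (it is `⊤` if there is no such set of edges). -/
noncomputable def f {n : ℕ} (k : ℕ) (G : SimpleGraph (Fin n)) : ℕ∞ :=
  ⨅ F : {F : Set (Sym2 (Fin n)) // F ⊆ G.edgeSet ∧ pathCoverNumber (G.deleteEdges F) = k},
    F.1.encard

/-- **The asked identity `f_k(G) = k (δ(G) - 1)` fails with high probability, for every fixed `k ≥ 2`.**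
Let `k ≥ 2` and let `p = p(n)` be edge probabilities such that `n p ≥ 100 k ^ 2 log n` for all large
`n`, or, in the case `k = 2`, such that only `n p - log n - 2 log log n → ∞`. Then with
probability tending to `1` as `n → ∞` the random graph `G = G(n,p)` satisfies
`f_k(G) ≠ k (δ(G) - 1)`; more precisely `f_k(G) < k (δ(G) - 1)` whenever the path cover number of `G`
is at most `k` (and if it is larger than `k`, then `f_k(G) = ⊤`). -/
theorem result (k : ℕ) (hk : 2 ≤ k) (p : ℕ → ℝ) (hp : ∀ n, 0 ≤ p n ∧ p n ≤ 1)
    (h : (∀ᶠ n : ℕ in atTop, 100 * k ^ 2 * Real.log n ≤ n * p n) ∨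
      (k = 2 ∧ Tendsto (fun n : ℕ => n * p n - Real.log n - 2 * Real.log (Real.log n)) atTop atTop)) :
    Tendsto (fun n => prob n (p n) (fun G =>
      f k G ≠ ((k * (minDegree G - 1) : ℕ) : ℕ∞) ∧
      (pathCoverNumber G ≤ k → f k G < ((k * (minDegree G - 1) : ℕ) : ℕ∞)))) atTop (𝓝 1) := by
  refine (Pool.Agent.Q256.PC.main k hk p hp h).congr fun n => ?_
  unfold Pool.Agent.Q256.PC.Pr Pool.Agent.W845.PM.EG prob
  refine Finset.sum_congr rfl fun G _ => ?_
  unfold Pool.Agent.W845.PM.wt
  rw [mul_ite, mul_one, mul_zero]
  rfl

end Pool.Agent.Results.MP_e6ec33_pr.IdentityFails
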