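import Pool.Agent.Q299.PC.Main

/-!
# MP_e6ec33_pr: the identity `f_k(G) = k (δ(G) - 1)` fails, and the exact value of `f_k(G)`

For every fixed `k ≥ 2` and every `p = p(n) ≥ 32 k √(log n / n)`, with high probability
`f_k(G(n,p))` equals the least number of edges meeting a set of `k-1` vertices, and this is
strictly smaller than `k (δ(G) - 1)`. All constant `p` in `(0,1]` are covered, and they are above
the Hamiltonicity threshold.
-/

namespace Pool.Agent.Results.MP_e6ec33_pr.IdentityFailsExactValue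

open Q299.PC Filter Topology

open scoped Classical

theorem result :
    (∀ k : ℕ, 2 ≤ k → ∀ p : ℕ → ℝ, (∀ n, p n ≤ 1) →
      (∀ᶠ n : ℕ in atTop, 32 * (k : ℝ) * Real.sqrt (Real.log n / n) ≤ p n) →
      Tendsto (fun n => gnpProb n (p n) (fun G =>
        fNum k G = minIncident (k - 1) G ∧
        fNum k G < ((k * (G.minDegree - 1) : ℕ) : ℕ∞))) atTop (𝓝 1) ∧
      Tendsto (fun n => gnpProb n (p n) (fun G =>
        fNum k G = ((k * (G.minDegree - 1) : ℕ) : ℕ∞))) atTop (𝓝 0)) ∧
    (∀ (k : ℕ) (c : ℝ), 2 ≤ k → 0 < c → c ≤ 1 →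
      Tendsto (fun n : ℕ => (n : ℝ) * c - Real.log n - Real.log (Real.log n)) atTop atTop ∧
      Tendsto (fun n => gnpProb n c (fun G =>
        fNum k G = ((k * (G.minDegree - 1) : ℕ) : ℕ∞))) atTop (𝓝 0)) := by
  refine ⟨fun k hk p hp1 hp => ⟨tendsto_good k hk p hp hp1, tendsto_identity k hk p hp hp1⟩, ?_⟩
  intro k c hk hc hc1
  exact ⟨admissible_const hc,
    tendsto_identity k hk (fun _ => c) (eventually_const k hc) (fun _ => hc1)⟩

end Pool.Agent.Results.MP_e6ec33_pr.IdentityFailsExactValue
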